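import Pool.Agent.Helper12.TS.StB

/-!
# Project TS (MP_d63854_co), module PAT: gluing pair components (2-sums)
-/

set_option autoImplicit false

namespace Pool.Agent.Helper22.TS

open Pool.Agent.Helper12.TS
open Pool.Agent.Helper51.AJ (IsMinor Planar Apex ExMinor Con Tch)
open Pool.Agent.Helper12.NK (rst Kc add)

private theorem minor_mono {W V : Type} {Γ : SimpleGraph W} {H H' : SimpleGraph V} (h : H ≤ H')
    (hm : IsMinor Γ H) : IsMinor Γ H' := by
  obtain ⟨φ, h1, h2, h3⟩ := hm
  refine ⟨φ, fun w => (h1 w).mono (fun _ _ hab => h hab), h2, fun w w' hw => ?_⟩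
  obtain ⟨x, hx, y, hy, hxy⟩ := h3 w w' hw
  exact ⟨x, hx, y, hy, h hxy⟩

private theorem planar_mono {V : Type} {H H' : SimpleGraph V} (h : H ≤ H') (hp : Planar H') :
    Planar H :=
  ⟨fun hm => hp.1 (minor_mono h hm), fun hm => hp.2 (minor_mono h hm)⟩

/-- a set of three elements containing `c` -/
private theorem three_elems {V : Type} [Finite V] {S : Set V} (hS : S.ncard = 3) {c : V}
    (hc : c ∈ S) : ∃ a b, a ≠ b ∧ a ≠ c ∧ b ≠ c ∧ a ∈ S ∧ b ∈ S ∧ ∀ t ∈ S, t = c ∨ t = a ∨ t = b := by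
  have h1 : (S \ {c}).ncard = 2 := by
    rw [Set.ncard_sdiff_singleton_of_mem hc, hS]
  obtain ⟨a, b, hab, hS2⟩ := Set.ncard_eq_two.1 h1
  have ha : a ∈ S \ {c} := by rw [hS2]; simp
  have hb : b ∈ S \ {c} := by rw [hS2]; simp
  refine ⟨a, b, hab, ha.2, hb.2, ha.1, hb.1, fun t ht => ?_⟩
  by_cases htc : t = c
  · exact Or.inl htc
  · have : t ∈ S \ {c} := ⟨ht, htc⟩
    rw [hS2] at this
    rcases this with h | h
    · exact Or.inr (Or.inl h)
    · exact Or.inr (Or.inr h)

/-- the union of the components of `B \ {v}` attached to `t` -/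
private def Wt {V : Type} (G : SimpleGraph V) (S B : Set V) (v t : V) : Set V :=
  {x | ∃ K, Cmp G (insert v S) K ∧ K ⊆ B ∧ Tch G {t} K ∧ x ∈ K}

/-- Module PAT. -/
theorem hPAT : StCMP → StTWO → StLNK → StPAT := by
  intro hCMP hTWO hLNK V hV G S A B c v y hK hS hA hB hAB hcov hvB hc hPc hy hpl hnpl hfin
  obtain ⟨a, b, hab, hac, hbc, ha, hb, hSt⟩ := three_elems hS hc
  obtain ⟨hP1, hP2⟩ := hPc
  have hAS : ∀ x ∈ A, x ∉ S := fun x hx hxS => Set.disjoint_left.1 hA.1 hx hxS
  have hBS : ∀ x ∈ B, x ∉ S := fun x hx hxS => Set.disjoint_left.1 hB.1 hx hxS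
  obtain ⟨-, k2, k3, -, k5, -, -⟩ := hCMP V G S
  obtain ⟨m1, m2, -, -, -, -, -⟩ := hCMP V G (insert v S)
  have hdisAB : Disjoint A B := k2 A B hA hB hAB
  have hAB' : ∀ x ∈ A, x ∉ B := fun x hx hxB => Set.disjoint_left.1 hdisAB hx hxB
  have hvS : v ∉ S := hBS v hvB
  -- a component does not touch both `a` and `b`
  have hnot : ∀ K, Cmp G (insert v S) K → K ⊆ B → Tch G {a} K → Tch G {b} K → False := by
    intro K hKc hKB h1 h2
    obtain ⟨h3, t, ht, h4⟩ := hP1 K hKc hKB
    rcases hSt t ht with rfl | rfl | rfl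
    · exact h4 h3
    · exact h4 h1
    · exact h4 h2
  have hWB : ∀ t, ∀ x ∈ Wt G S B v t, x ∈ B ∧ x ≠ v := by
    rintro t x ⟨K, hKc, hKB, -, hx⟩
    refine ⟨hKB hx, fun h => ?_⟩
    rw [h] at hx
    exact Set.disjoint_left.1 hKc.1 hx (Set.mem_insert _ _)
  have hcovB : ∀ x ∈ B, x ≠ v → x ∈ Wt G S B v a ∨ x ∈ Wt G S B v b := by
    intro x hx hxv
    have hxn : x ∉ insert v S := by
      rintro (h | h)
      · exact hxv h
      · exact hBS x hx h
    obtain ⟨K, hKc, hxK⟩ := m1 x hxn
    have hKB : K ⊆ B := by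
      refine k3 B K hB hKc.2.1 ?_ ⟨x, hxK, hx⟩
      exact hKc.1.mono_right (Set.subset_insert _ _)
    obtain ⟨t, ht, htc, hT⟩ := k5 hK hS v hvS K hKc c
    rcases hSt t ht with h | h | h
    · exact absurd h htc
    · rw [h] at hT
      exact Or.inl ⟨K, hKc, hKB, hT, hxK⟩
    · rw [h] at hT
      exact Or.inr ⟨K, hKc, hKB, hT, hxK⟩
  have hWdis : ∀ x, x ∈ Wt G S B v a → x ∈ Wt G S B v b → False := by
    rintro x ⟨K, hKc, hKB, hT, hx⟩ ⟨K', hKc', hKB', hT', hx'⟩
    have hKK : K = K' := by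
      by_contra hne
      exact Set.disjoint_left.1 (m2 K K' hKc hKc' hne) hx hx'
    rw [← hKK] at hT'
    exact hnot K hKc hKB hT hT'
  -- neighbours of `Wt a`, `Wt b`
  have hWa : ∀ x ∈ Wt G S B v a, ∀ z, G.Adj x z → z ≠ v → z ≠ c → z ≠ a → z ∈ Wt G S B v a := by
    rintro x ⟨K, hKc, hKB, hT, hx⟩ z hxz hzv hzc hza
    by_cases hzS : z ∈ insert v S
    · rcases hzS with h | h
      · exact absurd h hzv
      · rcases hSt z h with h | h | h
        · exact absurd h hzc
        · exact absurd h hza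
        · exact (hnot K hKc hKB hT ⟨b, rfl, x, hx, by rw [← h]; exact hxz.symm⟩).elim
    · exact ⟨K, hKc, hKB, hT, hKc.2.2 x hx z hzS hxz⟩
  have hWb : ∀ x ∈ Wt G S B v b, ∀ z, G.Adj x z → z ≠ v → z ≠ c → z ≠ b → z ∈ Wt G S B v b := by
    rintro x ⟨K, hKc, hKB, hT, hx⟩ z hxz hzv hzc hzb
    by_cases hzS : z ∈ insert v S
    · rcases hzS with h | h
      · exact absurd h hzv
      · rcases hSt z h with h | h | h
        · exact absurd h hzc
        · exact (hnot K hKc hKB ⟨a, rfl, x, hx, by rw [← h]; exact hxz.symm⟩ hT).elim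
        · exact absurd h hzb
    · exact ⟨K, hKc, hKB, hT, hKc.2.2 x hx z hzS hxz⟩
  have haWb : ∀ x ∈ Wt G S B v b, ¬ G.Adj a x := by
    rintro x ⟨K, hKc, hKB, hT, hx⟩ hax
    exact hnot K hKc hKB ⟨a, rfl, x, hx, hax⟩ hT
  have hbWa : ∀ x ∈ Wt G S B v a, ¬ G.Adj b x := by
    rintro x ⟨K, hKc, hKB, hT, hx⟩ hbx
    exact hnot K hKc hKB hT ⟨b, rfl, x, hx, hbx⟩
  have hWS : ∀ t, ∀ x ∈ Wt G S B v t, x ∉ S := fun t x hx => hBS x (hWB t x hx).1
  have hAnb : ∀ x ∈ A, ∀ z, G.Adj x z → z ∈ A ∨ z ∈ S := by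
    intro x hx z hxz
    by_cases hz : z ∈ S
    · exact Or.inr hz
    · exact Or.inl (hA.2.2 x hx z hz hxz)
  -- the planar graph
  set K' : SimpleGraph V := add (rst G ((B \ {v}) ∪ S)) y S with hK'
  have hLk : ∀ s ∈ S, ∀ t ∈ S, Lk K' {y} s t := by
    intro s hs t ht
    have hsy : s ≠ y := fun h => hAS y hy (h ▸ hs)
    have hty : t ≠ y := fun h => hAS y hy (h ▸ ht)
    refine Or.inr ⟨{y}, subset_rfl, Pool.Agent.Helper51.AJ.con_singleton K' y, ?_, ?_⟩
    · exact ⟨s, rfl, y, rfl, Or.inr (Or.inr ⟨rfl, hs, hsy⟩)⟩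
    · exact ⟨t, rfl, y, rfl, Or.inr (Or.inr ⟨rfl, ht, hty⟩)⟩
  have hyd : ∀ t, ∀ s ∈ S, ∀ s' ∈ S, Disjoint ({y} : Set V) (Wt G S B v t ∪ {s, s'}) := by
    intro t s hs s' hs'
    rw [Set.disjoint_singleton_left]
    rintro (h | h | h)
    · exact hAB' y hy (hWB t y h).1
    · exact hAS y hy (h ▸ hs)
    · exact hAS y hy (h ▸ hs')
  -- the first 2-sum
  set H : SimpleGraph V := rst G {v}ᶜ with hH
  have hHadj : ∀ x z, H.Adj x z → G.Adj x z ∧ x ≠ v ∧ z ≠ v := fun x z h => ⟨h.1, h.2.1, h.2.2⟩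
  have hH1 : ¬ Planar (rst H ((A ∪ Wt G S B v b ∪ {b}) ∪ {c, a}) ⊔ cl {c, a}) := by
    intro hplH
    obtain ⟨C, hC, hCn⟩ := hTWO V H c a {Wt G S B v a, A ∪ Wt G S B v b ∪ {b}} hac.symm (by
      rintro C (rfl | rfl)
      · refine ⟨fun h => hWS a c h hc, fun h => hWS a a h ha, fun x hx z hzc hza hxz => ?_⟩
        obtain ⟨h1, -, h3⟩ := hHadj x z hxz
        exact hWa x hx z h1 h3 hzc hza
      · refine ⟨?_, ?_, fun x hx z hzc hza hxz => ?_⟩
        · rintro ((h | h) | h)
          · exact hAS c h hc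
          · exact hWS b c h hc
          · exact hbc h.symm
        · rintro ((h | h) | h)
          · exact hAS a h ha
          · exact hWS b a h ha
          · exact hab h
        · obtain ⟨h1, -, h3⟩ := hHadj x z hxz
          rcases hx with (hx | hx) | hx
          · rcases hAnb x hx z h1 with h | h
            · exact Or.inl (Or.inl h)
            · rcases hSt z h with h | h | h
              · exact absurd h hzc
              · exact absurd h hza
              · exact Or.inr h
          · by_cases hzb : z = b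
            · exact Or.inr hzb
            · exact Or.inl (Or.inr (hWb x hx z h1 h3 hzc hzb))
          · have hxb : x = b := hx
            rw [hxb] at h1
            rcases hcov z with hz | hz | hz
            · exact Or.inl (Or.inl hz)
            · rcases hcovB z hz h3 with hz | hz
              · exact (hbWa z hz h1).elim
              · exact Or.inl (Or.inr hz)
            · rcases hSt z hz with h | h | h
              · exact absurd h hzc
              · exact absurd h hza
              · exact Or.inr h) (by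
      intro x z hxc hxa hxz
      obtain ⟨-, h2, -⟩ := hHadj x z hxz
      rcases hcov x with hx | hx | hx
      · exact ⟨_, Or.inr rfl, Or.inl (Or.inl hx)⟩
      · rcases hcovB x hx h2 with hx | hx
        · exact ⟨_, Or.inl rfl, hx⟩
        · exact ⟨_, Or.inr rfl, Or.inl (Or.inr hx)⟩
      · rcases hSt x hx with h | h | h
        · exact absurd h hxc
        · exact absurd h hxa
        · exact ⟨_, Or.inr rfl, Or.inr h⟩) hnpl
    rcases hC with rfl | rfl
    · refine hCn (hLNK V H K' (Wt G S B v a) {y} c a ?_ (hyd a c hc a ha) (hLk c hc a ha) hpl)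
      intro x z hxz
      obtain ⟨h1, h2, h3⟩ := hxz
      obtain ⟨h4, -, -⟩ := hHadj x z h1
      have haux : ∀ x ∈ Wt G S B v a ∪ {c, a}, x ∈ (B \ {v}) ∪ S := by
        rintro x (h | h | h)
        · exact Or.inl ⟨(hWB a x h).1, (hWB a x h).2⟩
        · exact Or.inr (h ▸ hc)
        · exact Or.inr (h ▸ ha)
      exact Or.inl ⟨h4, haux x h2, haux z h3⟩
    · exact hCn hplH
  -- the second 2-sum
  set H₁ : SimpleGraph V := rst H ((A ∪ Wt G S B v b ∪ {b}) ∪ {c, a}) ⊔ cl {c, a} with hH₁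
  have hclca : ∀ x z, (cl ({c, a} : Set V)).Adj x z → x ≠ z ∧ (x = c ∨ x = a) ∧ (z = c ∨ z = a) :=
    fun x z h => ⟨h.1, h.2.1, h.2.2⟩
  have hH2 : ¬ Planar (rst H₁ ((A ∪ {a}) ∪ {c, b}) ⊔ cl {c, b}) := by
    intro hplH
    obtain ⟨C, hC, hCn⟩ := hTWO V H₁ c b {Wt G S B v b, A ∪ {a}} hbc.symm (by
      rintro C (rfl | rfl)
      · refine ⟨fun h => hWS b c h hc, fun h => hWS b b h hb, fun x hx z hzc hzb hxz => ?_⟩
        rcases hxz with hxz | hxz
        · obtain ⟨h1, -, h3⟩ := hHadj x z hxz.1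
          exact hWb x hx z h1 h3 hzc hzb
        · obtain ⟨-, h | h, -⟩ := hclca x z hxz
          · exact (hWS b x hx (h ▸ hc)).elim
          · exact (hWS b x hx (h ▸ ha)).elim
      · refine ⟨?_, ?_, fun x hx z hzc hzb hxz => ?_⟩
        · rintro (h | h)
          · exact hAS c h hc
          · exact hac h.symm
        · rintro (h | h)
          · exact hAS b h hb
          · exact hab h.symm
        · rcases hxz with hxz | hxz
          · obtain ⟨h1, -, h3⟩ := hHadj x z hxz.1
            rcases hx with hx | hx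
            · rcases hAnb x hx z h1 with h | h
              · exact Or.inl h
              · rcases hSt z h with h | h | h
                · exact absurd h hzc
                · exact Or.inr h
                · exact absurd h hzb
            · have hxa : x = a := hx
              rw [hxa] at h1
              rcases hxz.2.2 with ((h | h) | h) | (h | h)
              · exact Or.inl h
              · exact (haWb z h h1).elim
              · exact absurd h hzb
              · exact absurd h hzc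
              · exact Or.inr h
          · obtain ⟨-, -, h | h⟩ := hclca x z hxz
            · exact absurd h hzc
            · exact Or.inr h) (by
      intro x z hxc hxb hxz
      rcases hxz with hxz | hxz
      · rcases hxz.2.1 with ((h | h) | h) | (h | h)
        · exact ⟨_, Or.inr rfl, Or.inl h⟩
        · exact ⟨_, Or.inl rfl, h⟩
        · exact absurd h hxb
        · exact absurd h hxc
        · exact ⟨_, Or.inr rfl, Or.inr h⟩
      · obtain ⟨-, h | h, -⟩ := hclca x z hxz
        · exact absurd h hxc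
        · exact ⟨_, Or.inr rfl, Or.inr h⟩) hH1
    rcases hC with rfl | rfl
    · refine hCn (hLNK V H₁ K' (Wt G S B v b) {y} c b ?_ (hyd b c hc b hb) (hLk c hc b hb) hpl)
      intro x z hxz
      obtain ⟨h1, h2, h3⟩ := hxz
      have haux : ∀ x ∈ Wt G S B v b ∪ {c, b}, x ∈ (B \ {v}) ∪ S ∧ x ≠ a := by
        rintro x (h | h | h)
        · exact ⟨Or.inl ⟨(hWB b x h).1, (hWB b x h).2⟩, fun hxa => hWS b x h (hxa ▸ ha)⟩
        · exact ⟨Or.inr (h ▸ hc), fun hxa => hac (hxa.symm.trans h)⟩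
        · exact ⟨Or.inr (h ▸ hb), fun hxa => hab (hxa.symm.trans h)⟩
      rcases h1 with h1 | h1
      · obtain ⟨h4, -, -⟩ := hHadj x z h1.1
        exact Or.inl ⟨h4, (haux x h2).1, (haux z h3).1⟩
      · obtain ⟨h5, h6 | h6, h7 | h7⟩ := hclca x z h1
        · exact absurd (h6.trans h7.symm) h5
        · exact absurd h7 (haux z h3).2
        · exact absurd h6 (haux x h2).2
        · exact absurd h6 (haux x h2).2
    · exact hCn hplH
  -- comparison
  refine hH2 (planar_mono ?_ hfin)
  intro x z hxz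
  have hstr : ∀ x z, x ≠ z → x ∈ S → z ∈ S → (x = c ∨ z = c) → (str c S).Adj x z := by
    rintro x z h1 h2 h3 (h4 | h4)
    · exact ⟨h1, Or.inl ⟨h4, h3⟩⟩
    · exact ⟨h1, Or.inr ⟨h4, h2⟩⟩
  have haux : ∀ x ∈ (A ∪ {a}) ∪ {c, b}, x ∈ A ∪ S := by
    rintro x ((h | h) | (h | h))
    · exact Or.inl h
    · exact Or.inr (h ▸ ha)
    · exact Or.inr (h ▸ hc)
    · exact Or.inr (h ▸ hb)
  rcases hxz with hxz | hxz
  · obtain ⟨h1, h2, h3⟩ := hxz
    rcases h1 with h1 | h1
    · obtain ⟨h4, -, -⟩ := hHadj x z h1.1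
      exact Or.inl ⟨h4, haux x h2, haux z h3⟩
    · obtain ⟨h5, h6, h7⟩ := hclca x z h1
      refine Or.inr (hstr x z h5 ?_ ?_ ?_)
      · rcases h6 with h | h
        · exact h ▸ hc
        · exact h ▸ ha
      · rcases h7 with h | h
        · exact h ▸ hc
        · exact h ▸ ha
      · rcases h6 with h | h
        · exact Or.inl h
        · rcases h7 with h' | h'
          · exact Or.inr h'
          · exact absurd (h.trans h'.symm) h5
  · obtain ⟨h5, h6, h7⟩ := hxz
    refine Or.inr (hstr x z h5 ?_ ?_ ?_)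
    · rcases h6 with h | h
      · exact h ▸ hc
      · exact h ▸ hb
    · rcases h7 with h | h
      · exact h ▸ hc
      · exact h ▸ hb
    · rcases h6 with h | h
      · exact Or.inl h
      · rcases h7 with h' | h'
        · exact Or.inr h'
        · have e1 : x = b := h
          have e2 : z = b := h'
          exact absurd (e1.trans e2.symm) h5

end Pool.Agent.Helper22.TS
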